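import Pool.Agent.Helper60.HB.Skel
import Pool.Agent.Helper13.Hall.Divisor

set_option autoImplicit false

namespace Pool.Agent.Helper97.HB

open Pool.Agent.Helper60.HB NumberField UniqueFactorizationMonoid

/-- the rational prime below a prime ideal -/
theorem idc_under {K : Type} [Field K] [NumberField K] (P : Ideal (𝓞 K)) (hP : P.IsPrime)
    (hP0 : P ≠ ⊥) : ∃ p : ℕ, p.Prime ∧ P ∈ IsDedekindDomain.primesOverFinset (Ideal.span {(p : ℤ)}) (𝓞 K) ∧
      p ∣ Ideal.absNorm P := by
  have hmem : ((Ideal.absNorm P : ℕ) : ℤ) ∈ P.comap (algebraMap ℤ (𝓞 K)) := by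
    rw [Ideal.mem_comap]
    simpa using Ideal.absNorm_mem P
  have hn0 : Ideal.absNorm P ≠ 0 := by
    rwa [Ne, Ideal.absNorm_eq_zero_iff]
  set Q := P.comap (algebraMap ℤ (𝓞 K)) with hQ
  have hQp : Q.IsPrime := Ideal.comap_isPrime _ _
  have hQ0 : Q ≠ ⊥ := by
    intro h
    rw [h, Ideal.mem_bot] at hmem
    exact hn0 (by exact_mod_cast hmem)
  obtain ⟨g, hg⟩ := (IsPrincipalIdealRing.principal Q).principal
  rw [Ideal.submodule_span_eq] at hg
  have hg0 : g ≠ 0 := by
    rintro rfl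
    apply hQ0
    rw [hg]
    simp
  have hgp : Prime g := by
    rw [hg] at hQp
    exact (Ideal.span_singleton_prime hg0).mp hQp
  have hgn : g.natAbs.Prime := Int.prime_iff_natAbs_prime.mp hgp
  have hsp : Ideal.span {((g.natAbs : ℕ) : ℤ)} = Q := by
    rw [hg]
    exact Int.span_natAbs g
  have hne : Ideal.span {((g.natAbs : ℕ) : ℤ)} ≠ ⊥ := by rw [hsp]; exact hQ0
  have hmax : (Ideal.span {((g.natAbs : ℕ) : ℤ)}).IsMaximal := by
    rw [hsp]
    exact hQp.isMaximal hQ0
  refine ⟨g.natAbs, hgn, ?_, ?_⟩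
  · rw [IsDedekindDomain.mem_primesOverFinset_iff hne]
    exact ⟨hP, ⟨by rw [hsp, hQ]⟩⟩
  · rw [← hsp, Ideal.mem_span_singleton] at hmem
    exact_mod_cast hmem

theorem idc_card {K : Type} [Field K] [NumberField K] (h3 : Module.finrank ℚ K = 3) (m : ℕ)
    (hm : m ≠ 0) (s : Finset (Ideal (𝓞 K))) (hs : ∀ I ∈ s, Ideal.absNorm I = m) :
    s.card ≤ m.divisors.card ^ 3 := by
  classical
  let S : Finset (Σ _ : ℕ, Ideal (𝓞 K)) :=
    m.primeFactors.sigma (fun p => IsDedekindDomain.primesOverFinset (Ideal.span {(p : ℤ)}) (𝓞 K))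
  let T := Finset.pi S (fun x => Finset.range (m.factorization x.1 + 1))
  have hI0 : ∀ I ∈ s, I ≠ ⊥ := by
    intro I hI h
    have := hs I hI
    rw [h, Ideal.absNorm_bot] at this
    exact hm this.symm
  have hmax : ∀ p : ℕ, p.Prime → (Ideal.span {(p : ℤ)}).IsMaximal ∧
      Ideal.span {(p : ℤ)} ≠ ⊥ := by
    intro p hp
    have h0 : Ideal.span {(p : ℤ)} ≠ ⊥ := by simpa using hp.ne_zero
    refine ⟨?_, h0⟩
    have : (Ideal.span {(p : ℤ)}).IsPrime := by
      rw [Ideal.span_singleton_prime (by exact_mod_cast hp.ne_zero)]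
      exact Nat.prime_iff_prime_int.mp hp
    exact this.isMaximal h0
  have hcardT : T.card ≤ m.divisors.card ^ 3 := by
    rw [Finset.card_pi, Nat.card_divisors hm, ← Finset.prod_pow]
    simp only [S]
    rw [Finset.prod_sigma]
    refine Finset.prod_le_prod' fun p hp => ?_
    simp only [Finset.card_range]
    rw [Finset.prod_const]
    refine Nat.pow_le_pow_right (Nat.succ_pos _) ?_
    have hpp := Nat.prime_of_mem_primeFactors hp
    obtain ⟨hM, hne⟩ := hmax p hpp
    rw [← h3]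
    exact Ideal.card_primesOverFinset_le_finrank (R := ℤ) (𝓞 K) ℚ K hne
  refine le_trans ?_ hcardT
  refine Finset.card_le_card_of_injOn
    (fun I => fun x _ => (normalizedFactors I).count x.2) ?_ ?_
  · intro I hI
    have hI := Finset.mem_coe.mp hI
    rw [Finset.mem_coe, Finset.mem_pi]
    rintro ⟨p, P⟩ hx
    simp only [S, Finset.mem_sigma] at hx
    obtain ⟨hp, hP⟩ := hx
    have hpp := Nat.prime_of_mem_primeFactors hp
    obtain ⟨hM, hne⟩ := hmax p hpp
    rw [IsDedekindDomain.mem_primesOverFinset_iff hne] at hP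
    rw [Finset.mem_range, Nat.lt_succ_iff, ← hpp.pow_dvd_iff_le_factorization hm]
    have h1 : P ^ (normalizedFactors I).count P ∣ I := by
      conv_rhs => rw [← Ideal.prod_normalizedFactors_eq_self (hI0 I hI)]
      rw [← Multiset.prod_replicate]
      exact Multiset.prod_dvd_prod_of_le (Multiset.le_count_iff_replicate_le.mp le_rfl)
    have h2 : Ideal.absNorm P ^ (normalizedFactors I).count P ∣ m := by
      rw [← hs I hI, ← map_pow]
      exact map_dvd _ h1
    have h4 : p ∣ Ideal.absNorm P := by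
      have hPp : P.IsPrime := hP.1
      have hPl : P.LiesOver (Ideal.span {(p : ℤ)}) := hP.2
      rw [Ideal.absNorm_eq_pow_inertiaDeg' P hpp]
      refine dvd_pow_self p fun h => ?_
      have h5 := Ideal.absNorm_eq_pow_inertiaDeg' P hpp
      rw [h, pow_zero, Ideal.absNorm_eq_one_iff] at h5
      exact hPp.ne_top h5
    exact (pow_dvd_pow_of_dvd h4 _).trans h2
  · intro I hI J hJ hIJ
    have hI := Finset.mem_coe.mp hI
    have hJ := Finset.mem_coe.mp hJ
    have key : ∀ L ∈ s, ∀ P ∈ normalizedFactors L, ∃ p, (⟨p, P⟩ : Σ _ : ℕ, Ideal (𝓞 K)) ∈ S := by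
      intro L hL P hP
      have hPpr := prime_of_normalized_factor P hP
      have hP0 : P ≠ ⊥ := hPpr.ne_zero
      have hPp : P.IsPrime := Ideal.isPrime_of_prime hPpr
      obtain ⟨p, hp, hmem, hdvd⟩ := idc_under P hPp hP0
      refine ⟨p, ?_⟩
      simp only [S, Finset.mem_sigma]
      refine ⟨?_, hmem⟩
      rw [Nat.mem_primeFactors]
      refine ⟨hp, hdvd.trans ?_, hm⟩
      rw [← hs L hL]
      exact map_dvd _ (dvd_of_mem_normalizedFactors hP)
    have hc : ∀ P, (normalizedFactors I).count P = (normalizedFactors J).count P := by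
      intro P
      by_cases h : P ∈ normalizedFactors I ∨ P ∈ normalizedFactors J
      · obtain ⟨p, hp⟩ : ∃ p, (⟨p, P⟩ : Σ _ : ℕ, Ideal (𝓞 K)) ∈ S := by
          rcases h with h | h
          · exact key I hI P h
          · exact key J hJ P h
        exact congrFun (congrFun hIJ ⟨p, P⟩) hp
      · push Not at h
        rw [Multiset.count_eq_zero.mpr h.1, Multiset.count_eq_zero.mpr h.2]
    rw [← Ideal.prod_normalizedFactors_eq_self (hI0 I hI), ← Ideal.prod_normalizedFactors_eq_self (hI0 J hJ),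
      Multiset.ext.mpr hc]

theorem st_IDC : ST_IDC := by
  classical
  intro ε hε
  obtain ⟨C, hC1, hC⟩ := Pool.Agent.Helper13.Hall.divisor_bound (ε := ε / 3) (by positivity)
  refine ⟨C ^ 3, one_le_pow₀ hC1, ?_⟩
  intro K _ _ h3 X s hX hs
  have hX0 : 0 ≤ X := by linarith
  have hmap : ∀ I ∈ s, Ideal.absNorm I ∈ Finset.Icc 1 ⌊X⌋₊ := by
    intro I hI
    rw [Finset.mem_Icc]
    refine ⟨Nat.one_le_iff_ne_zero.mpr ?_, Nat.le_floor (hs I hI).2⟩
    rw [Ne, Ideal.absNorm_eq_zero_iff]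
    exact (hs I hI).1
  rw [Finset.card_eq_sum_card_fiberwise hmap]
  push_cast
  have hle : ∀ m ∈ Finset.Icc 1 ⌊X⌋₊,
      (((s.filter fun I => Ideal.absNorm I = m).card : ℕ) : ℝ) ≤ C ^ 3 * X ^ ε := by
    intro m hm
    rw [Finset.mem_Icc] at hm
    have h1 := idc_card h3 m (by omega) (s.filter fun I => Ideal.absNorm I = m)
      (fun I hI => (Finset.mem_filter.mp hI).2)
    have h2 : (((s.filter fun I => Ideal.absNorm I = m).card : ℕ) : ℝ) ≤
        ((m.divisors.card : ℕ) : ℝ) ^ 3 := by exact_mod_cast h1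
    have h4 : (m : ℝ) ≤ X := le_trans (by exact_mod_cast hm.2) (Nat.floor_le hX0)
    calc _ ≤ ((m.divisors.card : ℕ) : ℝ) ^ 3 := h2
      _ ≤ (C * (m : ℝ) ^ (ε / 3)) ^ 3 := by
          gcongr
          exact hC m
      _ ≤ (C * X ^ (ε / 3)) ^ 3 := by
          gcongr
      _ = C ^ 3 * X ^ ε := by
          rw [mul_pow, ← Real.rpow_natCast (X ^ (ε / 3)), ← Real.rpow_mul hX0]
          norm_num
  refine (Finset.sum_le_sum hle).trans ?_
  rw [Finset.sum_const, Nat.card_Icc, Nat.add_sub_cancel, nsmul_eq_mul,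
    Real.rpow_add (by linarith), Real.rpow_one]
  have := Nat.floor_le hX0
  have h5 : 0 ≤ C ^ 3 * X ^ ε := by positivity
  nlinarith

end Pool.Agent.Helper97.HB
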