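import Pool.Agent.Helper60.HB.Skel

set_option autoImplicit false

namespace Pool.Agent.Helper97.HB

open Pool.Agent.Helper60.HB

theorem rb_sum_sq {W : Type} [Fintype W] (f g : W → ℝ) (x y : ℝ) :
    ∑ w, (x * f w + y * g w) ^ 2 =
      x ^ 2 * ∑ w, f w ^ 2 + 2 * x * y * ∑ w, f w * g w + y ^ 2 * ∑ w, g w ^ 2 := by
  rw [Finset.mul_sum, Finset.mul_sum, Finset.mul_sum, ← Finset.sum_add_distrib,
    ← Finset.sum_add_distrib]
  exact Finset.sum_congr rfl fun w _ => by ring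

/-- Gauss reduction of a positive definite binary quadratic form. -/
theorem rb_gauss (a b c : ℝ) (ha : 0 < a) (hD : 0 < a * c - b ^ 2) :
    ∃ M : Matrix (Fin 2) (Fin 2) ℤ, IsUnit M.det ∧
      (let Q : ℝ → ℝ → ℝ := fun x y => a * x ^ 2 + 2 * b * x * y + c * y ^ 2
       let B : ℝ := a * (M 0 0) * (M 1 0) + b * ((M 0 0) * (M 1 1) + (M 0 1) * (M 1 0))
          + c * (M 0 1) * (M 1 1)
       2 * |B| ≤ Q (M 0 0) (M 0 1) ∧ 2 * |B| ≤ Q (M 1 0) (M 1 1)) := by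
  classical
  have hc : 0 < c := by
    by_contra h
    push Not at h
    nlinarith [sq_nonneg b, mul_nonneg ha.le (neg_nonneg.mpr h)]
  let Q : ℝ → ℝ → ℝ := fun x y => a * x ^ 2 + 2 * b * x * y + c * y ^ 2
  have hQ : ∀ x y, (a * c - b ^ 2) * (x ^ 2 + y ^ 2) ≤ (a + c) * Q x y := by
    intro x y
    have : (a + c) * Q x y - (a * c - b ^ 2) * (x ^ 2 + y ^ 2) =
      (a * x + b * y) ^ 2 + (b * x + c * y) ^ 2 := by
      simp only [Q]; ring
    nlinarith [sq_nonneg (a * x + b * y), sq_nonneg (b * x + c * y)]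
  have hQ0 : ∀ x y, 0 ≤ Q x y := by
    intro x y
    have h1 := hQ x y
    have h2 : 0 ≤ (a * c - b ^ 2) * (x ^ 2 + y ^ 2) := by positivity
    by_contra h
    push Not at h
    nlinarith
  let N : Matrix (Fin 2) (Fin 2) ℤ → ℝ := fun M =>
    Q (M 0 0) (M 0 1) + Q (M 1 0) (M 1 1)
  let T : Set (Matrix (Fin 2) (Fin 2) ℤ) := {M | IsUnit M.det ∧ N M ≤ a + c}
  obtain ⟨R, hR⟩ : ∃ R : ℕ, (a + c) * (a + c) / (a * c - b ^ 2) ≤ R := exists_nat_ge _
  have hTf : T.Finite := by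
    refine Set.Finite.subset (Set.Finite.pi' (fun _ : Fin 2 => Set.Finite.pi'
      (fun _ : Fin 2 => Set.finite_Icc (-(R : ℤ)) R))) ?_
    rintro M ⟨-, hM⟩ i j
    have key : ∀ x y : ℤ, Q x y ≤ a + c → (x ∈ Set.Icc (-(R : ℤ)) R ∧ y ∈ Set.Icc (-(R : ℤ)) R) := by
      intro x y hxy
      have h1 := hQ x y
      have h2 : (x : ℝ) ^ 2 + (y : ℝ) ^ 2 ≤ R := by
        refine le_trans ?_ hR
        rw [le_div_iff₀ hD]
        nlinarith
      have h3 : x ^ 2 + y ^ 2 ≤ (R : ℤ) := by exact_mod_cast h2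
      refine ⟨⟨?_, ?_⟩, ⟨?_, ?_⟩⟩ <;> nlinarith [sq_nonneg x, sq_nonneg y, sq_nonneg (x - 1),
        sq_nonneg (x + 1), sq_nonneg (y - 1), sq_nonneg (y + 1)]
    have k0 := key (M 0 0) (M 0 1) (by
      have := hQ0 (M 1 0) (M 1 1)
      simp only [N] at hM
      linarith)
    have k1 := key (M 1 0) (M 1 1) (by
      have := hQ0 (M 0 0) (M 0 1)
      simp only [N] at hM
      linarith)
    fin_cases i <;> fin_cases j
    · exact k0.1
    · exact k0.2
    · exact k1.1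
    · exact k1.2
  have hTn : T.Nonempty := ⟨1, by simp, by simp [N, Q]⟩
  obtain ⟨M, ⟨hM1, hM2⟩, hmin⟩ := Set.exists_min_image T N hTf hTn
  refine ⟨M, hM1, ?_⟩
  have hdet := Matrix.det_fin_two M
  -- the move `row 1 - s * row 0`
  have step1 : ∀ s : ℤ, N M ≤ Q (M 0 0) (M 0 1) +
      Q (M 1 0 - s * M 0 0) (M 1 1 - s * M 0 1) := by
    intro s
    by_contra h
    push Not at h
    let M' : Matrix (Fin 2) (Fin 2) ℤ := !![M 0 0, M 0 1; M 1 0 - s * M 0 0, M 1 1 - s * M 0 1]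
    have h1 : M'.det = M.det := by
      rw [Matrix.det_fin_two, hdet]
      simp [M']
      ring
    have h2 : N M' = Q (M 0 0) (M 0 1) +
      Q (M 1 0 - s * M 0 0) (M 1 1 - s * M 0 1) := by
      simp [N, M']
    have h3 := hmin M' ⟨by rw [h1]; exact hM1, by rw [h2]; linarith⟩
    rw [h2] at h3
    linarith
  have step0 : ∀ s : ℤ, N M ≤ Q (M 0 0 - s * M 1 0) (M 0 1 - s * M 1 1) +
      Q (M 1 0) (M 1 1) := by
    intro s
    by_contra h
    push Not at h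
    let M' : Matrix (Fin 2) (Fin 2) ℤ := !![M 0 0 - s * M 1 0, M 0 1 - s * M 1 1; M 1 0, M 1 1]
    have h1 : M'.det = M.det := by
      rw [Matrix.det_fin_two, hdet]
      simp [M']
      ring
    have h2 : N M' = Q (M 0 0 - s * M 1 0) (M 0 1 - s * M 1 1) + Q (M 1 0) (M 1 1) := by
      simp [N, M']
    have h3 := hmin M' ⟨by rw [h1]; exact hM1, by rw [h2]; linarith⟩
    rw [h2] at h3
    linarith
  intro Q' B
  have hp := step1 1
  have hm := step1 (-1)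
  have hp0 := step0 1
  have hm0 := step0 (-1)
  simp only [N, Q] at hp hm hp0 hm0
  push_cast at hp hm hp0 hm0
  constructor
  · rcases abs_cases B with ⟨h, -⟩ | ⟨h, -⟩ <;> rw [h] <;> simp only [Q', B] <;> nlinarith
  · rcases abs_cases B with ⟨h, -⟩ | ⟨h, -⟩ <;> rw [h] <;> simp only [Q', B] <;> nlinarith

theorem rb_final (N0 N1 B x y : ℝ) (h0 : 0 < N0) (hB0 : 2 * |B| ≤ N0) (hB1 : 2 * |B| ≤ N1) :
    3 / 4 * x ^ 2 * N0 ≤ x ^ 2 * N0 + 2 * x * y * B + y ^ 2 * N1 := by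
  have h1 : 4 * B ^ 2 ≤ N0 * N1 := by
    have := mul_le_mul hB0 hB1 (by positivity) h0.le
    have h2 : (2 * |B|) * (2 * |B|) = 4 * B ^ 2 := by
      rw [← sq_abs B]; ring
    linarith
  have h2 : 0 ≤ N0 * (x ^ 2 * N0 / 4 + 2 * x * y * B + y ^ 2 * N1) := by
    have : N0 * (x ^ 2 * N0 / 4 + 2 * x * y * B + y ^ 2 * N1) =
      (x * N0 / 2 + 2 * y * B) ^ 2 + y ^ 2 * (N0 * N1 - 4 * B ^ 2) := by ring
    rw [this]
    have : 0 ≤ y ^ 2 * (N0 * N1 - 4 * B ^ 2) := mul_nonneg (sq_nonneg y) (by linarith)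
    positivity
  have h3 := nonneg_of_mul_nonneg_right h2 h0
  linarith

theorem rb_two (W : Type) [Fintype W] (v : Fin 2 → W → ℝ) (hv : LinearIndependent ℝ v) :
    ∃ (u : Fin 2 → W → ℝ) (M M' : Fin 2 → Fin 2 → ℤ),
    (∀ i, u i = ∑ j, (M i j : ℝ) • v j) ∧ (∀ i, v i = ∑ j, (M' i j : ℝ) • u j) ∧
    ∀ (x : Fin 2 → ℝ) (i : Fin 2),
      3 / 4 * (x i) ^ 2 * ∑ w, (u i w) ^ 2 ≤ ∑ w, (∑ j, x j * u j w) ^ 2 := by
  classical
  set a := ∑ w, v 0 w ^ 2 with ha'
  set b := ∑ w, v 0 w * v 1 w with hb'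
  set c := ∑ w, v 1 w ^ 2 with hc'
  have hpos : ∀ x y : ℝ, (x ≠ 0 ∨ y ≠ 0) → 0 < a * x ^ 2 + 2 * b * x * y + c * y ^ 2 := by
    intro x y hxy
    have h1 := rb_sum_sq (v 0) (v 1) x y
    have h2 : a * x ^ 2 + 2 * b * x * y + c * y ^ 2 = ∑ w, (x * v 0 w + y * v 1 w) ^ 2 := by
      rw [h1]; ring
    rw [h2]
    refine lt_of_le_of_ne (Finset.sum_nonneg fun w _ => sq_nonneg _) fun h3 => ?_
    have h4 : ∀ w, x * v 0 w + y * v 1 w = 0 := by
      intro w
      have := (Finset.sum_eq_zero_iff_of_nonneg fun w _ => sq_nonneg _).mp h3.symm w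
        (Finset.mem_univ w)
      exact pow_eq_zero_iff (two_ne_zero) |>.mp this
    rw [Fintype.linearIndependent_iff] at hv
    have h5 := hv ![x, y] (by
      ext w
      simpa [Fin.sum_univ_two] using h4 w)
    rcases hxy with h | h
    · exact h (by simpa using h5 0)
    · exact h (by simpa using h5 1)
  have ha : 0 < a := by
    have := hpos 1 0 (Or.inl one_ne_zero)
    simpa using this
  have hD : 0 < a * c - b ^ 2 := by
    have h1 := hpos (-b) a (Or.inr ha.ne')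
    have h2 : a * (-b) ^ 2 + 2 * b * (-b) * a + c * a ^ 2 = a * (a * c - b ^ 2) := by ring
    rw [h2] at h1
    exact (mul_pos_iff_of_pos_left ha).mp h1
  obtain ⟨M, hM, hM0, hM1⟩ := rb_gauss a b c ha hD
  let u : Fin 2 → W → ℝ := fun i => ∑ j, (M i j : ℝ) • v j
  have hu : ∀ i w, u i w = M i 0 * v 0 w + M i 1 * v 1 w := by
    intro i w
    simp [u, Fin.sum_univ_two]
  have hN : ∀ i, ∑ w, u i w ^ 2 = a * (M i 0 : ℝ) ^ 2 + 2 * b * (M i 0) * (M i 1) +
      c * (M i 1 : ℝ) ^ 2 := by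
    intro i
    simp only [hu]
    rw [rb_sum_sq]
    ring
  have hNB : ∑ w, u 0 w * u 1 w = a * (M 0 0) * (M 1 0) + b * ((M 0 0) * (M 1 1) +
      (M 0 1) * (M 1 0)) + c * (M 0 1) * (M 1 1) := by
    simp only [hu]
    have : ∀ w, ((M 0 0 : ℝ) * v 0 w + M 0 1 * v 1 w) * (M 1 0 * v 0 w + M 1 1 * v 1 w) =
      (M 0 0 * M 1 0) * v 0 w ^ 2 + (M 0 0 * M 1 1 + M 0 1 * M 1 0) * (v 0 w * v 1 w) +
        (M 0 1 * M 1 1) * v 1 w ^ 2 := fun w => by ring
    simp only [this]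
    rw [Finset.sum_add_distrib, Finset.sum_add_distrib, ← Finset.mul_sum, ← Finset.mul_sum,
      ← Finset.mul_sum]
    ring
  have hrow : ∀ i, (M i 0 : ℝ) ≠ 0 ∨ (M i 1 : ℝ) ≠ 0 := by
    intro i
    by_contra h
    push Not at h
    have h0 : M i 0 = 0 := by exact_mod_cast h.1
    have h1 : M i 1 = 0 := by exact_mod_cast h.2
    rw [Matrix.det_fin_two] at hM
    fin_cases i
    · simp only [Fin.zero_eta] at h0 h1
      rw [h0, h1] at hM
      simp at hM
    · simp only [Fin.mk_one] at h0 h1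
      rw [h0, h1] at hM
      simp at hM
  have hNpos : ∀ i, 0 < ∑ w, u i w ^ 2 := by
    intro i
    rw [hN]
    exact hpos _ _ (hrow i)
  refine ⟨u, M, (M⁻¹ : Matrix (Fin 2) (Fin 2) ℤ), fun i => rfl, fun i => ?_, fun x i => ?_⟩
  · have h1 := Matrix.nonsing_inv_mul M hM
    have h2 : ∑ j, ((M⁻¹ i j : ℤ) : ℝ) • u j = ∑ k, (((M⁻¹ * M) i k : ℤ) : ℝ) • v k := by
      simp only [u, Finset.smul_sum, smul_smul]
      rw [Finset.sum_comm]
      refine Finset.sum_congr rfl fun k _ => ?_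
      rw [← Finset.sum_smul]
      congr 1
      rw [Matrix.mul_apply]
      push_cast
      rfl
    rw [h2, h1]
    have h3 : ∀ k, ((((1 : Matrix (Fin 2) (Fin 2) ℤ) i k) : ℤ) : ℝ) = if i = k then 1 else 0 := by
      intro k
      rw [Matrix.one_apply]
      split_ifs <;> simp
    simp only [h3, ite_smul, one_smul, zero_smul, Finset.sum_ite_eq, Finset.mem_univ, if_true]
  · have h1 : ∀ w, ∑ j, x j * u j w = x 0 * u 0 w + x 1 * u 1 w := fun w => by
      rw [Fin.sum_univ_two]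
    simp only [h1]
    rw [rb_sum_sq]
    have e0 : 2 * |∑ w, u 0 w * u 1 w| ≤ ∑ w, u 0 w ^ 2 := by
      rw [hNB, hN]; exact hM0
    have e1 : 2 * |∑ w, u 0 w * u 1 w| ≤ ∑ w, u 1 w ^ 2 := by
      rw [hNB, hN]; exact hM1
    fin_cases i
    · exact rb_final _ _ _ _ _ (hNpos 0) e0 e1
    · have := rb_final _ _ _ (x 1) (x 0) (hNpos 1) e1 e0
      simp only [Fin.mk_one]
      linarith

theorem st_RB : ST_RB := by
  intro W _ r v hr hv
  interval_cases r
  · exact ⟨v, fun _ _ => 0, fun _ _ => 0, fun i => i.elim0, fun i => i.elim0, fun _ i => i.elim0⟩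
  · refine ⟨v, fun _ _ => 1, fun _ _ => 1, fun i => ?_, fun i => ?_, fun x i => ?_⟩
    · have : i = 0 := Subsingleton.elim _ _
      subst this
      simp
    · have : i = 0 := Subsingleton.elim _ _
      subst this
      simp
    · have : i = 0 := Subsingleton.elim _ _
      subst this
      have h1 : ∀ w, (∑ j, x j * v j w) ^ 2 = x 0 ^ 2 * v 0 w ^ 2 := fun w => by
        simp [mul_pow]
      simp only [h1]
      rw [← Finset.mul_sum]
      have : 0 ≤ x 0 ^ 2 * ∑ w, v 0 w ^ 2 :=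
        mul_nonneg (sq_nonneg _) (Finset.sum_nonneg fun w _ => sq_nonneg _)
      linarith
  · exact rb_two W v hv

end Pool.Agent.Helper97.HB
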